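import Pool.Agent.PFB.Stmts
import Pool.Agent.Helper60_PFS.Simp

/-!
# PFB rows PSI and SUP: functionals on a box
-/

set_option autoImplicit false

open Matrix Filter Topology

namespace Pool.Agent.PFB.H52

open Pool.Agent.PFS Pool.Agent.PFB

theorem psi (hB : BfaStmt) : PsiStmt := by
  intro n C Γ h K L w β hbox a φ hφ
  obtain ⟨h1, _, _, h4, _, _⟩ := hB n C Γ h K L w β hbox
  choose y hyL hyS using fun x : ↥(⨆ a, L a) => h4 x x.2
  have huniq : ∀ (x : ↥(⨆ a, L a)) (z : Fin K → V n), (∀ b, z b ∈ L b) → ∑ b, z b = x →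
      ∀ b, y x b = z b := by
    intro x z hz hs b
    have h5 := h1 (fun b => y x b - z b) (fun b => (L b).sub_mem (hyL x b) (hz b))
      (by rw [Finset.sum_sub_distrib, hyS, hs, sub_self]) b
    exact sub_eq_zero.1 h5
  let f : ↥(⨆ a, L a) →ₗ[ℝ] ℝ :=
    { toFun := fun x => φ (y x a)
      map_add' := by
        intro x x'
        have h5 := huniq (x + x') (fun b => y x b + y x' b)
          (fun b => (L b).add_mem (hyL x b) (hyL x' b))
          (by rw [Finset.sum_add_distrib, hyS, hyS]; rfl) a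
        rw [h5, map_add]
      map_smul' := by
        intro c x
        have h5 := huniq (c • x) (fun b => c • y x b) (fun b => (L b).smul_mem c (hyL x b))
          (by rw [← Finset.smul_sum, hyS]; rfl) a
        rw [h5, map_smul]
        rfl }
  have hf : ∀ x : ↥(⨆ a, L a), f x = φ (y x a) := fun x => rfl
  let s : PointedCone ℝ (V n) :=
    { carrier := closure C
      add_mem' := fun hx hy => h.cl_add hx hy
      zero_mem' := h.zero_cl
      smul_mem' := fun c x hx => h.cl_smul hx c.2 }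
  have hs : ∀ x, x ∈ s ↔ x ∈ closure C := fun x => Iff.rfl
  have hsumC : ∑ i, w i ∈ C := hbox.pes.1.sum_mem
  have hsumW : ∑ i, w i ∈ ⨆ a, L a :=
    Submodule.sum_mem _ fun i _ => Submodule.mem_iSup_of_mem (β i) (hbox.mem i)
  obtain ⟨ψ, hψf, hψ⟩ := riesz_extension s ⟨⨆ a, L a, f⟩ (by
      intro x hx
      have hx' : (x : V n) ∈ closure C := hx
      show 0 ≤ f x
      rw [hf]
      refine hφ _ (hyL x a) (hbox.comp (y x) (hyL x) ?_ a)
      rw [hyS]
      exact hx') (by
      intro v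
      obtain ⟨M, _, hM⟩ := h.absorb hsumC (-v)
      refine ⟨⟨M • ∑ i, w i, Submodule.smul_mem _ _ hsumW⟩, ?_⟩
      rw [hs]
      have h5 : M • ∑ i, w i - -v = M • ∑ i, w i + v := by rw [sub_neg_eq_add]
      rw [h5] at hM
      exact subset_closure hM)
  have hval : ∀ (x : V n) (hx : x ∈ ⨆ a, L a), ψ x = φ (y ⟨x, hx⟩ a) := fun x hx =>
    hψf ⟨x, hx⟩
  refine ⟨ψ, fun x hx => hψ x hx, ?_, ?_⟩
  · intro x hx
    have hxW : x ∈ ⨆ a, L a := Submodule.mem_iSup_of_mem a hx
    rw [hval x hxW, huniq ⟨x, hxW⟩ (fun b => if b = a then x else 0) (fun b => by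
      split_ifs with hb
      · rw [hb]; exact hx
      · exact (L b).zero_mem) (by simp) a, if_pos rfl]
  · intro b hb x hx
    have hxW : x ∈ ⨆ a, L a := Submodule.mem_iSup_of_mem b hx
    rw [hval x hxW, huniq ⟨x, hxW⟩ (fun c => if c = b then x else 0) (fun c => by
      split_ifs with hc
      · rw [hc]; exact hx
      · exact (L c).zero_mem) (by simp) a, if_neg (Ne.symm hb), map_zero]

theorem sup (hB : BfaStmt) : SupStmt := by
  classical
  intro n C Γ h K L w β hbox hwcl a y hyL hycl hyU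
  obtain ⟨_, h2, h3, _, _, _⟩ := hB n C Γ h K L w β hbox
  obtain ⟨u, hu⟩ : ∃ u : Fin K → V n, ∀ b, u b = ∑ i ∈ Finset.univ.filter (fun i => β i = b), w i :=
    ⟨_, fun b => rfl⟩
  have huU : ∀ b, Unt C (L b) (u b) := fun b => by rw [hu]; exact h3 b
  have hucl : ∀ b, u b ∈ closure C := fun b => (huU b).2.1
  obtain ⟨fam, hfam⟩ : ∃ fam : V n → Fin K → V n, ∀ x b, fam x b = if b = a then x else u b :=
    ⟨_, fun x b => rfl⟩
  have hfL : ∀ x ∈ L a, ∀ b, fam x b ∈ L b := by
    intro x hx b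
    rw [hfam]
    split_ifs with hb
    · rw [hb]; exact hx
    · exact (huU b).1
  have hsum : ∀ x, ∑ b, fam x b = x + ∑ b ∈ Finset.univ.erase a, u b := by
    intro x
    rw [← Finset.add_sum_erase _ _ (Finset.mem_univ a), hfam, if_pos rfl]
    congr 1
    exact Finset.sum_congr rfl fun b hb => by rw [hfam, if_neg (Finset.ne_of_mem_erase hb)]
  set z : V n := y + ∑ b ∈ Finset.univ.erase a, u b with hz
  have hzC : z ∉ C := by
    intro hzC
    rw [hz, ← hsum] at hzC
    have h5 := (h2 _ (hfL y hyL)).1 hzC a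
    rw [hfam, if_pos rfl] at h5
    exact hyU h5
  have hzcl : z ∈ closure C := h.cl_add hycl (h.cl_sum fun b _ => hucl b)
  obtain ⟨f, hf⟩ := geometric_hahn_banach_open_point h.convex h.isOpen hzC
  have hfz : 0 ≤ f z := by
    by_contra hneg
    rw [not_le] at hneg
    obtain ⟨c, hc⟩ := h.nonempty
    have h5 := hf c hc
    have hfc : f c < 0 := h5.trans hneg
    have h6 : 0 < f z / f c := div_pos_of_neg_of_neg hneg hfc
    have h7 := hf _ (h.smul c hc _ h6)
    rw [map_smul, smul_eq_mul, div_mul_cancel₀ _ hfc.ne] at h7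
    exact lt_irrefl _ h7
  have hle : ∀ c ∈ C, f c ≤ 0 := by
    intro c hc
    by_contra hpos
    rw [not_le] at hpos
    have h5 : 0 < (f z + 1) / f c := by positivity
    have h6 := hf _ (h.smul c hc _ h5)
    rw [map_smul, smul_eq_mul, div_mul_cancel₀ _ hpos.ne'] at h6
    linarith
  have hlecl : ∀ c ∈ closure C, f c ≤ 0 := by
    intro c hc
    have hcl : IsClosed {x : V n | f x ≤ 0} := isClosed_le f.continuous continuous_const
    exact (closure_minimal (fun x hx => hle x hx) hcl) hc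
  have hfz0 : f z = 0 := le_antisymm (hlecl z hzcl) hfz
  have hfy : f y ≤ 0 := hlecl y hycl
  have hfu : f (∑ b ∈ Finset.univ.erase a, u b) ≤ 0 := hlecl _ (h.cl_sum fun b _ => hucl b)
  have hadd : f y + f (∑ b ∈ Finset.univ.erase a, u b) = 0 := by
    rw [← map_add, ← hz, hfz0]
  refine ⟨-(f : V n →ₗ[ℝ] ℝ), ?_, ?_, ?_⟩
  · intro x hx
    have := hlecl x hx
    change 0 ≤ -(f x)
    linarith
  · change -(f y) = 0
    linarith
  · intro x hx
    have h5 : x + ∑ b ∈ Finset.univ.erase a, u b ∈ C := by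
      rw [← hsum]
      refine (h2 _ (hfL x hx.1)).2 fun b => ?_
      rw [hfam]
      split_ifs with hb
      · rw [hb]; exact hx
      · exact huU b
    have h6 := hf _ h5
    rw [hfz0, map_add] at h6
    change 0 < -(f x)
    linarith

end Pool.Agent.PFB.H52
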